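import Mathlib

open Polynomial Filter Topology

namespace Pool.Agent.Results.MP_1bffc6_nt.FareyDiameter

/-- least sup norm on E of a monic integer polynomial of degree n -/
noncomputable def mn (E : Set ℝ) (n : ℕ) : ℝ :=
  sInf {M : ℝ | ∃ P : ℤ[X], P.Monic ∧ P.natDegree = n ∧ M = sSup ((fun x : ℝ => |aeval x P|) '' E)}

lemma approx (a1 a2 b1 b2 : ℤ) (hb1 : 0 < b1) (h : a2 * b1 - a1 * b2 = 1) (E : Set ℝ) (μ : ℝ)
    (hu : ∀ x ∈ E, |b1 * x - a1| ≤ μ) (hv : ∀ x ∈ E, |a2 - b2 * x| ≤ μ) :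
    ∀ n : ℕ, ∀ G : ℝ[X], G.natDegree ≤ n → ∃ H : ℤ[X], H.natDegree ≤ n ∧
      ∀ x ∈ E, |G.eval x - aeval x H| ≤ (n + 1) * μ ^ n := by
  have hb : (b1 : ℝ) ≠ 0 := by exact_mod_cast hb1.ne'
  have hr : (a2 : ℝ) * b1 - a1 * b2 = 1 := by exact_mod_cast h
  intro n
  induction n with
  | zero =>
    intro G hG
    rw [natDegree_eq_zero.mp (Nat.le_zero.mp hG) |>.choose_spec.symm]
    refine ⟨C (round (natDegree_eq_zero.mp (Nat.le_zero.mp hG)).choose), by simp, fun x _ => ?_⟩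
    simp only [eval_C, eq_intCast, map_intCast]
    have := abs_sub_round (natDegree_eq_zero.mp (Nat.le_zero.mp hG)).choose
    simp only [Nat.cast_zero, zero_add, pow_zero, mul_one]
    linarith
  | succ n ih =>
    intro G hG
    obtain ⟨c, hc⟩ : ∃ c : ℝ, c = G.eval ((a1 : ℝ) / b1) * b1 ^ (n + 1) := ⟨_, rfl⟩
    obtain ⟨V, hV⟩ : ∃ V : ℝ[X], V = C (a2 : ℝ) - C (b2 : ℝ) * X := ⟨_, rfl⟩
    have hroot : IsRoot (G - C c * V ^ (n + 1)) (a1 / b1) := by
      have e : (a2 : ℝ) - b2 * (a1 / b1) = 1 / b1 := by field_simp; linarith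
      simp only [IsRoot, eval_sub, eval_mul, eval_C, eval_pow, hV, eval_X, e, hc]
      rw [mul_assoc, ← mul_pow, mul_one_div_cancel hb, one_pow, mul_one, sub_self]
    obtain ⟨G1, hG1⟩ := dvd_iff_isRoot.mpr hroot
    have dV : V.natDegree ≤ 1 := by rw [hV]; compute_degree
    have d0 : (G - C c * V ^ (n + 1)).natDegree ≤ n + 1 := by
      refine (natDegree_sub_le _ _).trans (max_le hG ((natDegree_C_mul_le _ _).trans ?_))
      exact natDegree_pow_le.trans (by nlinarith)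
    have d1 : (C (1 / (b1:ℝ)) * G1).natDegree ≤ n := by
      refine (natDegree_C_mul_le _ _).trans ?_
      by_cases h0 : G1 = 0
      · simp [h0]
      · rw [hG1, natDegree_mul (X_sub_C_ne_zero _) h0, natDegree_X_sub_C] at d0; omega
    obtain ⟨H1, hH1, hH⟩ := ih _ d1
    refine ⟨C (round c) * (C a2 - C b2 * X) ^ (n + 1) + (C b1 * X - C a1) * H1, ?_, fun x hx => ?_⟩
    · refine (natDegree_add_le _ _).trans (max_le ((natDegree_C_mul_le _ _).trans ?_) ?_)
      · have : (C a2 - C b2 * X : ℤ[X]).natDegree ≤ 1 := by compute_degree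
        exact natDegree_pow_le.trans (by nlinarith)
      · have : (C b1 * X - C a1 : ℤ[X]).natDegree ≤ 1 := by compute_degree
        exact natDegree_mul_le.trans (by omega)
    · have e1 := congrArg (eval x) hG1
      simp only [eval_sub, eval_mul, eval_C, eval_pow, hV, eval_X] at e1
      have h1 := hH x hx
      simp only [eval_mul, eval_C] at h1
      have e2 : G.eval x - aeval x (C (round c) * (C a2 - C b2 * X) ^ (n + 1) + (C b1 * X - C a1) * H1)
          = (c - round c) * (a2 - b2 * x) ^ (n + 1) + (b1 * x - a1) * (1 / b1 * G1.eval x - aeval x H1) := by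
        simp only [map_add, map_mul, map_pow, map_sub, aeval_X, eq_intCast, map_intCast]
        have : G.eval x = c * (a2 - b2 * x) ^ (n + 1) + (x - a1 / b1) * G1.eval x := by linarith
        rw [this]; field_simp; ring
      rw [e2]
      have μ0 : 0 ≤ μ := (abs_nonneg _).trans (hu x hx)
      have t1 : |(c - round c) * (a2 - b2 * x) ^ (n + 1)| ≤ 1 * μ ^ (n + 1) := by
        rw [abs_mul, abs_pow]
        exact mul_le_mul ((abs_sub_round c).trans (by norm_num)) (pow_le_pow_left₀ (abs_nonneg _) (hv x hx) _)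
          (by positivity) (by norm_num)
      have t2 : |(b1 * x - a1) * (1 / b1 * G1.eval x - aeval x H1)| ≤ μ * ((n + 1) * μ ^ n) := by
        rw [abs_mul]; exact mul_le_mul (hu x hx) h1 (abs_nonneg _) μ0
      refine (abs_add_le _ _).trans ?_
      push_cast
      rw [pow_succ μ] at t1 ⊢
      linarith

lemma lower {a b k l : ℤ} (hb : 2 ≤ b) (h : a * k + b * l = 1) {P : ℤ[X]} (hP : P.Monic) :
    (1 / (b : ℝ)) ^ P.natDegree ≤ |aeval ((a : ℝ) / b) P| := by
  have hb0 : (0 : ℝ) < b := by exact_mod_cast (by omega : 0 < b)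
  have hne : aeval ((a : ℝ) / b) P ≠ 0 := by
    intro h0
    have h1 : aeval ((a : ℚ) / b) P = 0 := by
      have := aeval_algebraMap_apply ℝ ((a : ℚ) / b) P
      simp only [eq_ratCast, Rat.cast_div, Rat.cast_intCast] at this
      rw [this] at h0
      exact_mod_cast h0
    obtain ⟨t, ht⟩ := isInteger_of_is_root_of_monic hP h1
    have hbq : (b : ℚ) ≠ 0 := by exact_mod_cast (by omega : b ≠ 0)
    simp only [algebraMap_int_eq, eq_intCast] at ht
    have h2 : t * b = a := by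
      have : (t : ℚ) * b = a := by rw [ht]; field_simp
      exact_mod_cast this
    have h3 : b ∣ 1 := ⟨t * k + l, by rw [← h, ← h2]; ring⟩
    have := Int.le_of_dvd (by norm_num) h3
    omega
  have := one_le_pow_mul_abs_eval_div (K := ℝ) (f := P) (a := a) (b := b) (by omega)
    (by rwa [eval_map_algebraMap])
  rw [eval_map_algebraMap] at this
  rw [one_div, inv_pow, inv_le_iff_one_le_mul₀ (by positivity)]
  linarith

theorem result (a1 a2 b1 b2 : ℤ) (hb1 : 2 ≤ b1) (hb2 : 2 ≤ b2) (hdet : |a1 * b2 - a2 * b1| = 1)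
    (hlt : (a1 : ℝ) / b1 < a2 / b2) :
    Tendsto (fun n : ℕ => mn (Set.Icc ((a1 : ℝ) / b1) (a2 / b2)) n ^ (1 / (n : ℝ))) atTop
      (𝓝 (max (1 / (b1 : ℝ)) (1 / (b2 : ℝ)))) := by
  have p1 : (0 : ℝ) < b1 := by exact_mod_cast (by omega : 0 < b1)
  have p2 : (0 : ℝ) < b2 := by exact_mod_cast (by omega : 0 < b2)
  have h : a2 * b1 - a1 * b2 = 1 := by
    rw [div_lt_div_iff₀ p1 p2] at hlt
    have : a1 * b2 < a2 * b1 := by exact_mod_cast hlt
    rw [abs_of_neg (by omega)] at hdet; omega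
  have hr : (a2 : ℝ) * b1 - a1 * b2 = 1 := by exact_mod_cast h
  obtain ⟨E, hE⟩ : ∃ E, E = Set.Icc ((a1 : ℝ) / b1) (a2 / b2) := ⟨_, rfl⟩
  obtain ⟨μ, hμ⟩ : ∃ μ, μ = max (1 / (b1 : ℝ)) (1 / (b2 : ℝ)) := ⟨_, rfl⟩
  rw [← hE, ← hμ]
  have m1 : 1 / (b1 : ℝ) ≤ μ := hμ ▸ le_max_left _ _
  have m2 : 1 / (b2 : ℝ) ≤ μ := hμ ▸ le_max_right _ _
  have μ0 : 0 < μ := lt_of_lt_of_le (by positivity) m1
  have key : ∀ x ∈ E, 0 ≤ b1 * x - a1 ∧ 0 ≤ a2 - b2 * x ∧ b2 * (b1 * x - a1) + b1 * (a2 - b2 * x) = 1 := by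
    intro x hx
    rw [hE] at hx
    obtain ⟨x1, x2⟩ := hx
    rw [div_le_iff₀ p1] at x1
    rw [le_div_iff₀ p2] at x2
    exact ⟨by linarith, by linarith, by linarith⟩
  have hu : ∀ x ∈ E, |b1 * x - a1| ≤ μ := by
    intro x hx
    obtain ⟨k1, k2, k3⟩ := key x hx
    rw [abs_of_nonneg k1]
    refine le_trans ?_ m2
    rw [le_div_iff₀ p2]; nlinarith
  have hv : ∀ x ∈ E, |a2 - b2 * x| ≤ μ := by
    intro x hx
    obtain ⟨k1, k2, k3⟩ := key x hx
    rw [abs_of_nonneg k2]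
    refine le_trans ?_ m1
    rw [le_div_iff₀ p1]; nlinarith
  have e1 : (a1 : ℝ) / b1 ∈ E := by rw [hE]; exact ⟨le_rfl, hlt.le⟩
  have e2 : (a2 : ℝ) / b2 ∈ E := by rw [hE]; exact ⟨hlt.le, le_rfl⟩
  have bdd : ∀ P : ℤ[X], BddAbove ((fun x : ℝ => |aeval x P|) '' E) := by
    intro P
    rw [hE]
    exact (isCompact_Icc.image (continuous_abs.comp (Polynomial.continuous_aeval P))).bddAbove
  have low : ∀ n, ∀ M ∈ {M : ℝ | ∃ P : ℤ[X], P.Monic ∧ P.natDegree = n ∧
      M = sSup ((fun x : ℝ => |aeval x P|) '' E)}, μ ^ n ≤ M := by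
    rintro n M ⟨P, hP, rfl, rfl⟩
    rcases max_choice (1 / (b1 : ℝ)) (1 / (b2 : ℝ)) with hh | hh
    · rw [hμ, hh]
      exact (lower (k := -b2) (l := a2) hb1 (by linarith) hP).trans (le_csSup (bdd P) ⟨_, e1, rfl⟩)
    · rw [hμ, hh]
      exact (lower (k := b1) (l := -a1) hb2 (by linarith) hP).trans (le_csSup (bdd P) ⟨_, e2, rfl⟩)
  have lo : ∀ n, μ ^ n ≤ mn E n := fun n =>
    le_csInf ⟨_, X ^ n, monic_X_pow n, natDegree_X_pow n, rfl⟩ (low n)
  have up : ∀ n : ℕ, mn E (n + 1) ≤ (1 + 1 / μ) * ((n + 1 : ℕ) : ℝ) * μ ^ (n + 1) := by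
    intro n
    have dG : ((X - C ((a1 : ℝ) / b1)) ^ (n + 1) - X ^ (n + 1)).natDegree ≤ n := by
      have hm : ((X - C ((a1 : ℝ) / b1)) ^ (n + 1)).Monic := (monic_X_sub_C _).pow _
      have hd : ((X - C ((a1 : ℝ) / b1)) ^ (n + 1)).natDegree = n + 1 := by
        rw [natDegree_pow, natDegree_X_sub_C, mul_one]
      have h1 := degree_sub_lt_left (p := (X - C ((a1 : ℝ) / b1)) ^ (n + 1)) (q := X ^ (n + 1))
        (by rw [degree_eq_natDegree hm.ne_zero, hd, degree_X_pow]) hm.ne_zero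
        (by rw [hm.leadingCoeff, (monic_X_pow _).leadingCoeff])
      rw [degree_eq_natDegree hm.ne_zero, hd] at h1
      by_cases h0 : (X - C ((a1 : ℝ) / b1)) ^ (n + 1) - X ^ (n + 1) = 0
      · rw [h0]; simp
      · exact Nat.lt_succ_iff.mp ((natDegree_lt_iff_degree_lt h0).mpr h1)
    obtain ⟨H, hH1, hH⟩ := approx a1 a2 b1 b2 (by omega) h E μ hu hv n _ dG
    have hlt' : H.degree < (X ^ (n + 1) : ℤ[X]).degree := by
      rw [degree_X_pow]; exact degree_le_natDegree.trans_lt (by exact_mod_cast (by omega))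
    refine (csInf_le ⟨_, low (n + 1)⟩ ⟨X ^ (n + 1) + H, (monic_X_pow _).add_of_left hlt',
      by rw [natDegree_add_eq_left_of_degree_lt hlt', natDegree_X_pow], rfl⟩).trans ?_
    refine csSup_le ⟨_, _, e1, rfl⟩ ?_
    rintro _ ⟨x, hx, rfl⟩
    have h1 := hH x hx
    simp only [eval_sub, eval_pow, eval_X, eval_C] at h1
    have h2 : |(x - a1 / b1) ^ (n + 1)| ≤ μ ^ (n + 1) := by
      rw [abs_pow]
      refine pow_le_pow_left₀ (abs_nonneg _) (le_trans ?_ (hu x hx)) _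
      have : (b1 : ℝ) * x - a1 = b1 * (x - a1 / b1) := by field_simp
      have b1' : (1 : ℝ) ≤ b1 := by exact_mod_cast (by omega : 1 ≤ b1)
      rw [this, abs_mul, abs_of_pos p1]
      nlinarith [abs_nonneg (x - a1 / b1)]
    have h3 : aeval x (X ^ (n + 1) + H) =
        (x - a1 / b1) ^ (n + 1) - ((x - a1 / b1) ^ (n + 1) - x ^ (n + 1) - aeval x H) := by
      simp only [map_add, map_pow, aeval_X]; ring
    simp only
    rw [h3]
    refine (abs_sub _ _).trans ?_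
    have h4 : (1 + 1 / μ) * ((n + 1 : ℕ) : ℝ) * μ ^ (n + 1) = (n + 1) * μ ^ (n + 1) + (n + 1) * μ ^ n := by
      push_cast; field_simp; ring
    have h5 : μ ^ (n + 1) ≤ (n + 1) * μ ^ (n + 1) :=
      le_mul_of_one_le_left (by positivity) (by linarith [Nat.cast_nonneg (α := ℝ) n])
    linarith
  have t1 : Tendsto (fun n : ℕ => (1 + 1 / μ) ^ (1 / (n : ℝ)) * (n : ℝ) ^ (1 / (n : ℝ)) * μ) atTop (𝓝 μ) := by
    have a : Tendsto (fun n : ℕ => (1 + 1 / μ) ^ (1 / (n : ℝ))) atTop (𝓝 1) := by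
      have := (tendsto_const_nhds (x := 1 + 1 / μ)).rpow tendsto_one_div_atTop_nhds_zero_nat
        (Or.inl (by positivity))
      simpa using this
    have b : Tendsto (fun n : ℕ => (n : ℝ) ^ (1 / (n : ℝ))) atTop (𝓝 1) :=
      tendsto_rpow_div.comp tendsto_natCast_atTop_atTop
    simpa using (a.mul b).mul_const μ
  refine tendsto_of_tendsto_of_tendsto_of_le_of_le' tendsto_const_nhds t1 ?_ ?_
  · filter_upwards [eventually_ge_atTop 1] with n hn
    calc μ = (μ ^ n) ^ (1 / (n : ℝ)) := by rw [one_div, Real.pow_rpow_inv_natCast μ0.le (by omega)]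
      _ ≤ _ := Real.rpow_le_rpow (by positivity) (lo n) (by positivity)
  · filter_upwards [eventually_ge_atTop 1] with n hn
    obtain ⟨k, rfl⟩ : ∃ k, n = k + 1 := ⟨n - 1, by omega⟩
    refine (Real.rpow_le_rpow ((by positivity : 0 ≤ μ ^ (k + 1)).trans (lo _)) (up k) (by positivity)).trans ?_
    rw [Real.mul_rpow (by positivity) (by positivity), Real.mul_rpow (by positivity) (by positivity),
      one_div (((k + 1 : ℕ) : ℝ)), Real.pow_rpow_inv_natCast μ0.le (by omega)]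

end Pool.Agent.Results.MP_1bffc6_nt.FareyDiameter
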